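import Pool.Agent.Zk46.US.All

/-! # Every set of slopes: a lower bound for the exponents in the arithmetic Kakeya conjecture

The arithmetic Kakeya conjecture says that for every `ε > 0` the inequality
`|π₋₁(A)| ≤ max (|π_∞(A)|, max_{r ∈ S} |π_r(A)|) ^ (1 + ε)` holds with a suitable finite set `S` of
slopes different from `-1`. We call `S` useful for `κ` if the inequality with the exponent `κ` holds for
all `A` with some constant factor `C = C(S)`.

1. There is `k₀` such that NO set `S` of `k ≥ k₀` rational slopes `≠ -1` is useful for an exponent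
   `κ ≤ 1 + (log log k) / (9 k)`. The simple construction (sums of `k + 1` segments in the directions of
   the slopes) excludes only the exponents `κ < 1 + 1 / k`.
2. There is `ε₀ > 0` such that for `0 < ε ≤ ε₀` every set `S` of slopes which is useful for `1 + ε` has
   more than `(log log (1 / (9 ε))) / (9 ε)` elements. So the number `k(ε)` of the slopes which are
   necessary for the exponent `1 + ε`, whatever the slopes are, is not `O(1 / ε)`: `ε k(ε) → ∞`.

Nothing is assumed on `S`: the slopes need not be lacunary, generic or random, as in the starting file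
`LacunarySlopes` and in `AlmostAllSlopes`.

Idea of the proof. The digit sets `X_{j+1} = X_j + ν_j X_j` (`j < l - 1`) show that the slopes `t - 1`,
`t + ν_j - 1` are together not much better than two slopes if each `ν_j` avoids a set of at most
`2 |X_j| ^ 8` elements, which depends on `t` and the previous `ν_i`: there is a set of points with
`M ^ 2` differences, at most `M ^ 2` values in every direction and about `M ^ (3 / 2)` values in these `l`
directions and in the direction `∞` (`M ^ (7 / 4)` with our parameters). The size of the excluded sets is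
doubly exponential in `l`, so that ANY set of `√k` slopes contains such a block of `l ≥ log log k` slopes.
We take away blocks from `S` as long as possible; the slopes which are left are blocks of one slope. The
product of the sets of points of all `b ≤ (17 / 16) k / l` blocks has `M ^ (2 b)` differences and at most
`M ^ (2 b - 1 / 4)` values in each direction of `S ∪ {∞}`. -/

set_option autoImplicit false

open Finset

namespace Pool.Agent.Zk46.Reserve.EverySetOfSlopes

/-- the projection `π_r(A) = {x + r y : (x, y) ∈ A}` -/
def proj (r : ℚ) (A : Finset (ℤ × ℤ)) : Finset ℚ :=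
  A.image (fun p : ℤ × ℤ => (p.1 : ℚ) + r * (p.2 : ℚ))

/-- the projection `π_∞(A) = {y : (x, y) ∈ A}` -/
def projInf (A : Finset (ℤ × ℤ)) : Finset ℚ := A.image (fun p : ℤ × ℤ => (p.2 : ℚ))

/-- the largest size of a projection of `A` with slope `∞` or in `S` -/
def big (S : Finset ℚ) (A : Finset (ℤ × ℤ)) : ℕ :=
  max (projInf A).card (S.sup fun r => (proj r A).card)

/-- the slopes `S` (and `∞`) give the inequality with the exponent `κ`, up to a constant factor -/
def Useful (κ : ℝ) (S : Finset ℚ) : Prop :=
  ∃ C : ℝ, ∀ A : Finset (ℤ × ℤ), ((proj (-1) A).card : ℝ) ≤ C * (big S A : ℝ) ^ κ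

theorem result :
    -- 1. no set of `k` slopes is useful for `1 + (log log k) / (9 k)`
    (∃ k₀ : ℕ, ∀ S : Finset ℚ, (-1 : ℚ) ∉ S → k₀ ≤ S.card →
      ∀ κ : ℝ, κ ≤ 1 + Real.log (Real.log S.card) / (9 * S.card) → ¬ Useful κ S) ∧
    -- 2. the number of the slopes which are necessary for `1 + ε`
    (∃ ε₀ : ℝ, 0 < ε₀ ∧ ∀ ε : ℝ, 0 < ε → ε ≤ ε₀ → ∀ S : Finset ℚ, (-1 : ℚ) ∉ S →
      Useful (1 + ε) S → Real.log (Real.log (1 / (9 * ε))) / (9 * ε) < S.card) :=
  ⟨Pool.Agent.Zk46.US.universal', Pool.Agent.Zk46.US.many'⟩

end Pool.Agent.Zk46.Reserve.EverySetOfSlopes
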